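import Pool.Agent.Q299.MBD.Final

/-!
# MP_f1bc00_pr, Q1: the negated form holds for `b = 1`, `p = 3 / 4`

Let `n = k ^ 2 4 ^ k`. With high probability some set of `k` vertices dominates (second moment over
the transversals of a partition into `k` classes), but there are no two dominating sets of `k`
vertices that share `k - 1` vertices. Then `γ(G) = k`, and if Dominator could win in `k` rounds,
then after her move number `k - 1` she would need two different vertices each of which completes her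
`k - 1` vertices to a dominating set.
-/

namespace Pool.Agent.Results.MP_f1bc00_pr.NotAlwaysDomNumber

open Finset Filter Topology Q299.MBD

open Pool.Agent.W166.Gnp

/-- `γ_MB(G, b) = γ'_MB(G, b) = ⌈γ(G) / b⌉` -/
def Chain {n : ℕ} (b : ℕ) (G : SimpleGraph (Fin n)) : Prop :=
  gMB G b = gMB' G b ∧ gMB' G b = ((⌈(domNumber G : ℝ) / b⌉₊ : ℕ) : ℕ∞)

theorem gnpProb_eq (n : ℕ) (p : ℝ) (A : SimpleGraph (Fin n) → Prop) :
    gnpProb n p A = Pr (allE n) p (fun S => A (gr S)) := by
  classical
  unfold gnpProb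
  rw [← sum_eq_Pr]

theorem chain_le {k : ℕ} (hk : 2 ≤ k) :
    gnpProb (nn k) (3 / 4) (fun G => Chain 1 G) ≤
      (cc k * Real.exp ((Real.exp 1 / 4) ^ k) - 1) +
      (nn k : ℝ) ^ (k + 1) * (1 - 7 / 4 * ep k) ^ (nn k - (k + 1)) := by
  have h34 : (0 : ℝ) ≤ 3 / 4 := by norm_num
  have h34' : (3 / 4 : ℝ) ≤ 1 := by norm_num
  rw [gnpProb_eq]
  refine le_trans (Pr_mono h34 h34' (B := fun S => (¬ ∃ D : Finset (Fin (nn k)), D.card = k ∧
      IsDominating (gr S) D) ∨ Twins (gr S) k) ?_) ((Pr_or_le h34 h34' _ _).trans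
      (add_le_add (Pr_no_dom (by omega)) (Pr_twins (by omega))))
  intro S _ hS
  by_contra hcon
  push Not at hcon
  obtain ⟨h1, h2⟩ := hcon
  have hnn := le_nn (k := k) (by omega)
  obtain ⟨h3, h4⟩ := gMB_ne (G := gr S) hk (by rw [Fintype.card_fin]; omega) h1 h2
  apply h4
  rw [hS.1, hS.2, h3]
  simp

theorem tendsto_sub : Tendsto (fun k => gnpProb (nn k) (3 / 4) (fun G => Chain 1 G)) atTop (𝓝 0) := by
  have h := no_dom_tendsto.add twins_tendsto
  rw [add_zero] at h
  refine tendsto_of_tendsto_of_tendsto_of_le_of_le' tendsto_const_nhds h ?_ ?_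
  · filter_upwards with k
    rw [gnpProb_eq]
    exact Pr_nonneg (by norm_num) (by norm_num) _
  · filter_upwards [eventually_ge_atTop 2] with k hk
    exact chain_le hk

theorem not_tendsto : ¬ Tendsto (fun n => gnpProb n (3 / 4) (fun G => Chain 1 G)) atTop (𝓝 1) := by
  intro h
  have hnn : Tendsto nn atTop atTop := by
    apply tendsto_atTop_mono' _ _ tendsto_id
    filter_upwards [eventually_ge_atTop 1] with k hk
    have := le_nn hk
    simp only [id]
    omega
  have h2 := h.comp hnn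
  exact one_ne_zero (tendsto_nhds_unique h2 tendsto_sub)

/-- Q1 has a negative answer: for `b = 1` and `p = 3 / 4` the probability that
`γ_MB(G, b) = γ'_MB(G, b) = ⌈γ(G) / b⌉` tends to `0` along the sequence `n = k * (k * 4 ^ k)`,
so it does not tend to `1`. -/
theorem result :
    Tendsto (fun k => gnpProb (k * (k * 4 ^ k)) (3 / 4) (fun G => Chain 1 G)) atTop (𝓝 0) ∧
    ¬ Tendsto (fun n => gnpProb n (3 / 4) (fun G => Chain 1 G)) atTop (𝓝 1) ∧
    ¬ (∀ b : ℕ, 1 ≤ b → ∀ p : ℝ, 0 < p → p < 1 →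
      Tendsto (fun n => gnpProb n p (fun G => Chain b G)) atTop (𝓝 1)) :=
  ⟨tendsto_sub, not_tendsto, fun h => not_tendsto (h 1 le_rfl (3 / 4) (by norm_num) (by norm_num))⟩

end Pool.Agent.Results.MP_f1bc00_pr.NotAlwaysDomNumber
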